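import Pool.Agent.Helper69_BEL.Pub

/-!
# `MP_be01ff_an`: every bounded domain

The wave equation `u_tt - Δ u + a |u_t|^α u_t = 0` with the Dirichlet condition in an arbitrary
bounded open set `Ω` of `ℝ^d`, for all `a, α > 0` with `(d - 2) α < 4`.

For a dense set of initial data the energy `E` of the (unique) energy solution satisfies the
optimal upper bound `E(t) ≤ M (1 + t)^(-2/α)` for all `t ≥ 0`, the reversed inequality
`c t^(-2/α) ≤ E(t)` on a set of times `t` of lower logarithmic density at least `g > 0`, and a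
polynomial lower bound `m (1 + t)^(-K) ≤ E(t)` for all `t ≥ 0`; here `c`, `g`, `K` and the
constant `C` of the bound `E(t) ≤ C t^(-2/α)` for large `t` depend only on `Ω`, `a` and `α`.  For the
data of a dense `G_δ` subset of the energy space the set of times with `c t^(-2/α) ≤ E(t)` has upper
logarithmic density at least `g`.
-/

namespace Pool.Agent.Results.MP_be01ff_an.AllDomains

open Set Filter Topology MeasureTheory
open Pool.Agent.BE01 Pool.Agent.BEL Pool.Agent.BEL.Pub

/-- Let `Ω` be a nonempty bounded open set of `ℝ^d`, `a, α > 0`, `(d - 2) α < 4`.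

(U) Every datum of the energy space has an energy solution; the distance of two energy solutions in
the energy norm is nonincreasing; two energy solutions with the same data are equal.

There are constants `c, C, g, K > 0` such that the following holds.

(D) Near every datum of the energy space there is one whose energy solution has
`E(t) ≤ M (1 + t)^(-2/α)` and `m (1 + t)^(-K) ≤ E(t)` for all `t ≥ 0` with some `M` and `m > 0`,
`E(t) ≤ C t^(-2/α)` for all large `t`, and `{t | c t^(-2/α) ≤ E(t)}` has lower logarithmic density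
at least `g`.

(G) For the data of a dense `G_δ` subset of the energy space the energy solution has
`E(t) ≤ C t^(-2/α)` for all large `t`, and `{t | c t^(-2/α) ≤ E(t)}` has upper logarithmic density
at least `g`. -/
theorem result {d : ℕ} (hd : 0 < d) (Ω : Set (En d)) (hΩ : Dom Ω) (a α : ℝ) (ha : 0 < a)
    (hα : 0 < α) (hs : ((d : ℝ) - 2) * α < 4) :
    Existence Ω a α ∧ Contraction Ω a α ∧ Uniqueness Ω a α ∧
    ∃ c C g K : ℝ, 0 < c ∧ 0 < C ∧ 0 < g ∧ 0 < K ∧
      DenseData Ω (DataWith Ω a α (PropD α c C g K)) ∧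
      ∃ D, Gdelta Ω D ∧ DenseData Ω D ∧ D ⊆ DataWith Ω a α (PropG α c C g) := by
  obtain ⟨hU1, hU2, c, C, g, K, hc, hC, hg, hK, hD, D, hD1, hD2, hD3, hD4⟩ :=
    H69.fin d Ω a α hd hΩ ha hα hs
  refine ⟨?_, ?_, ?_, c, C, g, K, hc, hC, hg, hK, ⟨fun P hP => hP.1, ?_⟩, D, hD1, ⟨hD2, hD3⟩, ?_⟩
  · rintro ⟨u₀, G₀, v₀⟩ hP
    obtain ⟨u, v, G, h, h1, h2, h3⟩ := hU1 u₀ v₀ G₀ hP
    refine ⟨u, v, G, (sol_iff Ω a α u v G).2 h, ?_⟩
    rw [h1, h2, h3]
  · intro u v u' v' G G' h h' s t hs hst
    rw [energy_eq, energy_eq]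
    exact (hU2 u v u' v' G G' ((sol_iff _ _ _ _ _ _).1 h) ((sol_iff _ _ _ _ _ _).1 h')).1 s t hs hst
  · intro u v u' v' G G' h h' he t ht
    have e2 : G 0 = G' 0 := congrArg (fun P => P.2.1) he
    have e3 : v 0 = v' 0 := congrArg (fun P => P.2.2) he
    obtain ⟨h3, h4, h5⟩ := (hU2 u v u' v' G G' ((sol_iff _ _ _ _ _ _).1 h)
      ((sol_iff _ _ _ _ _ _).1 h')).2 e2 e3 t ht
    rw [h3, h4, h5]
  · rintro ⟨u₀, G₀, v₀⟩ hP
    refine Metric.mem_closure_iff.2 fun ε hε => ?_
    obtain ⟨u₁, v₁, G₁, h1, h2, h3, h4, h5⟩ := hD u₀ v₀ G₀ ε hP hε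
    refine ⟨(u₁, G₁, v₁), ⟨h1, ?_⟩, ?_⟩
    · intro u v G h he
      exact h5 u v G ((sol_iff _ _ _ _ _ _).1 h) (congrArg (fun P => P.2.1) he)
        (congrArg (fun P => P.2.2) he)
    · rw [dist_comm, Prod.dist_eq, Prod.dist_eq]
      simp only [dist_eq_norm]
      exact max_lt h2 (max_lt h3 h4)
  · intro P hP
    refine ⟨hD2 hP, fun u v G h he => hD4 u v G ((sol_iff _ _ _ _ _ _).1 h) ?_⟩
    have he' : ((u 0, G 0, v 0) : LS Ω × LV Ω × LS Ω) ∈ D := by
      rw [he]
      exact hP
    exact he'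

end Pool.Agent.Results.MP_be01ff_an.AllDomains
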