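import Pool.Agent.Helper64_BEG.Fun2
import Pool.Agent.Helper64_BEP.AllR
import Pool.Agent.Helper64_BEP.FunQ
import Pool.Agent.Helper64_BEQ.FunA
import Pool.Agent.Helper22_BEN.All
import Pool.Agent.Helper22_BEC.All
import Pool.Agent.Helper22_FS.Cor
import Pool.Agent.Helper22_FS.Prod
import Pool.Agent.Helper22_BXS.All
import Pool.Agent.Helper93_BEO.Fin
import Pool.Agent.Helper70_BE01.Conv

/-!
# MP_be01ff_an: solutions with the sharp rate of decay from a non-resonant Dirichlet eigenvalue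
-/

namespace Pool.Agent.Results.MP_be01ff_an.FinalState

open Pool.Agent.BE01F
open Set Filter Topology MeasureTheory
open scoped InnerProductSpace ENNReal

noncomputable section

variable {d : ℕ}

/-- For `α = 2p` and every `a > 0` there is a solution with the sharp rate. -/
def Sharp (Ω : Set (E d)) (p : ℕ) : Prop := ∀ a : ℝ, 0 < a → SharpRate Ω a ((2 * p : ℕ) : ℝ)

/-- `u` is invariant (almost everywhere in `Ω`) under the isometries in `G`. -/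
def InvF (Ω : Set (E d)) (G : Set (E d ≃ᵢ E d)) (u : E d → ℝ) : Prop :=
  ∀ g ∈ G, AeZero Ω (fun x => u (g x) - u x)

/-- `l` is a Dirichlet eigenvalue of `- Δ` in `Ω` with a nonzero `G`-invariant eigenfunction. -/
def Ev (Ω : Set (E d)) (G : Set (E d ≃ᵢ E d)) (l : ℝ) : Prop :=
  ∃ φ, Eig Ω l φ ∧ ¬ AeZero Ω φ ∧ InvF Ω G φ

/-- The ball `|x| < R`. -/
def Ball (d : ℕ) (R : ℝ) : Set (E d) := {x | ‖x‖ < R}

/-- The shell `r < |x| < R`. -/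
def Shell (d : ℕ) (r R : ℝ) : Set (E d) := {x | r < ‖x‖ ∧ ‖x‖ < R}

/-- The box `∏ (0, l_i)`. -/
def Box (l : Fin d → ℝ) : Set (E d) := {x | ∀ i, 0 < x i ∧ x i < l i}

/-- The product of `R A` and `B`: `x = (y, z) ∈ ℝ^(d+m)` with `y / R ∈ A`, `z ∈ B`. -/
def Prd (d m : ℕ) (R : ℝ) (A : Set (E d)) (B : Set (E m)) : Set (E (d + m)) :=
  {x | (WithLp.toLp 2 fun i : Fin d => R⁻¹ * x (Fin.castAdd m i)) ∈ A ∧
    (WithLp.toLp 2 fun j : Fin m => x (Fin.natAdd d j)) ∈ B}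

/-- `u` is the weak solution of `- Δ u = h` in `Ω`, `u = 0` on the boundary. -/
def Dir (Ω : Set (E d)) (h u : E d → ℝ) : Prop :=
  ∃ F, H10 Ω u F ∧ ∀ ψ, Test Ω ψ →
    intg Ω (fun x => ⟪F x, gradient ψ x⟫_ℝ) = intg Ω (fun x => h x * ψ x)

/-- The resolvent distance of `Ω, Ω' ⊆ D` is at most `ε`: the solutions `u`, `u'` of `- Δ u = h` in `Ω`
and of `- Δ u' = h` in `Ω'`, extended by zero, satisfy `‖u - u'‖ ≤ ε` in `L²(D)` if `‖h‖ ≤ 1`. -/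
def Near (D Ω Ω' : Set (E d)) (ε : ℝ) : Prop :=
  ∀ h u u' : E d → ℝ, L2 D h → nrm D h ≤ 1 → Dir Ω h u → Dir Ω' h u' →
    nrm D (fun x => Ω.indicator u x - Ω'.indicator u' x) ≤ ENNReal.ofReal ε

theorem sharp_of_rt {Ω : Set (E d)} {p : ℕ}
    (h : ∀ a : ℝ, 0 < a → Pool.Agent.BEH.Rt Ω a ((2 * p : ℕ) : ℝ)) : Sharp Ω p :=
  fun a ha => Pool.Agent.Helper70BE01Conv.sharp_of (h a ha)

/-- The criterion. -/
theorem crit (frg : Pool.Agent.BER.FrgStmt) (hd : 2 ≤ d) {p : ℕ} (hp : 1 ≤ p) {Ω : Set (E d)}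
    {G : Set (E d ≃ᵢ E d)} {l : ℝ} (hΩ : IsOpen Ω) (hb : Bornology.IsBounded Ω)
    (hG : ∀ g ∈ G, g '' Ω = Ω) (hl : Ev Ω G l)
    (h3 : ∀ n : ℕ, Odd n → 3 ≤ n → n ≤ 2 * p + 1 → ¬ Ev Ω G ((n : ℝ) ^ 2 * l))
    (hgap : ∀ J : ℕ, ∃ M, J ≤ M ∧ ∀ n : ℕ, Odd n → M < n → n ≤ M + 2 * p →
      ¬ Ev Ω G ((n : ℝ) ^ 2 * l)) : Sharp Ω p := by
  have key : ∀ n : ℕ, ¬ Ev Ω G ((n : ℝ) ^ 2 * l) →
      Pool.Agent.BEG.Fun.NoInv Ω G ((n : ℝ) ^ 2 * l) := by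
    intro n hn u hu hi
    by_contra h0
    exact hn ⟨u, hu, h0, hi⟩
  intro a ha
  refine Pool.Agent.BEG.Fun.sharpR frg hd Ω hΩ hb G hG p hp a l ha hl
    (fun n h1 h2 h4 => key n (h3 n h1 h2 h4)) fun J => ?_
  obtain ⟨M, hM, h⟩ := hgap J
  exact ⟨M, hM, fun n h1 h2 h4 => key n (h n h1 h2 h4)⟩

/-- Only finitely many odd `n` such that `n^2 l` is an eigenvalue. -/
theorem fin (hd : 2 ≤ d) {Ω : Set (E d)} {G : Set (E d ≃ᵢ E d)} {l : ℝ} (hΩ : IsOpen Ω)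
    (hb : Bornology.IsBounded Ω) (hG : ∀ g ∈ G, g '' Ω = Ω) (hl : Ev Ω G l)
    (hf : {n : ℕ | Odd n ∧ Ev Ω G ((n : ℝ) ^ 2 * l)}.Finite) (p : ℕ) (hp : 1 ≤ p) :
    Sharp Ω p := by
  obtain ⟨l', h1, h2⟩ := Pool.Agent.Helper22FS.Cor.cor_fin (Ev Ω G) l hl hf
  refine crit Pool.Agent.BEP.AllR.frg hd hp hΩ hb hG h1 (fun n hn h3 _ => h2 n hn h3) fun J => ?_
  exact ⟨J + 3, by omega, fun n hn h3 _ => h2 n hn (by omega)⟩

/-- Only finitely many `k` such that `9^k l` is an eigenvalue, `α = 2`. -/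
theorem nine (hd : 2 ≤ d) {Ω : Set (E d)} {G : Set (E d ≃ᵢ E d)} {l : ℝ} (hΩ : IsOpen Ω)
    (hb : Bornology.IsBounded Ω) (hG : ∀ g ∈ G, g '' Ω = Ω) (hl : Ev Ω G l)
    (hf : {k : ℕ | Ev Ω G ((9 : ℝ) ^ k * l)}.Finite) : Sharp Ω 1 := by
  obtain ⟨l', h1, h2, h3⟩ := Pool.Agent.Helper22FS.Cor.cor_nine (Ev Ω G) l hl hf
  exact crit Pool.Agent.BEP.AllR.frg hd le_rfl hΩ hb hG h1 h2 h3

/-- Balls. -/
theorem ball (blb : Pool.Agent.BER.BlbStmt) (hd : 2 ≤ d) {p : ℕ} (hp : 1 ≤ p) {R : ℝ}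
    (hR : 0 < R) : Sharp (Ball d R) p := by
  have hB : Ball d R = Pool.Agent.BEO.BB d R := by
    ext x
    simp [Ball, Pool.Agent.BEO.BB]
  rw [hB]
  rcases eq_or_ne d 3 with rfl | h3
  · obtain ⟨l, φ, hφ, he, hn⟩ := Pool.Agent.BEO.Fin.bao 0 R hR
    refine sharp_of_rt fun a ha => Pool.Agent.BEN.All.fng 3 (Pool.Agent.BEO.BB 3 R) p a l φ
      (by norm_num) ⟨Metric.isOpen_ball, Metric.isBounded_ball, ⟨0, by
        simpa [Pool.Agent.BEO.BB] using hR⟩⟩ hp ha hφ he ?_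
    refine (Set.finite_singleton 1).subset ?_
    rintro n ⟨h1, u, hu0, hu⟩
    by_contra h3
    have h4 : 2 ≤ n := by
      have : n ≠ 1 := h3
      obtain ⟨k, hk⟩ := h1
      omega
    exact hu0 (hn n h4 u hu)
  · exact sharp_of_rt fun a ha => blb d p R a hd h3 hp hR ha

/-- Shells. -/
theorem shell (shb : Pool.Agent.BER.ShbStmt) (hd : 2 ≤ d) {p : ℕ} (hp : 1 ≤ p) {r R : ℝ}
    (hr : 0 < r) (hR : r < R) : Sharp (Shell d r R) p := by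
  rcases eq_or_ne d 3 with rfl | h3
  · intro a ha
    have hp' : (0 : ℝ) < ((2 * p : ℕ) : ℝ) := by
      have : 0 < 2 * p := by omega
      exact_mod_cast this
    exact Pool.Agent.BEC.All.shr r R a _ hr hR ha hp'
  · exact sharp_of_rt fun a ha => shb d p r R a hd h3 hp hr hR ha

/-- Products. -/
theorem prod {m : ℕ} (hd : 2 ≤ d) (hm : 1 ≤ m) {A : Set (E d)} {B : Set (E m)} (hA : IsOpen A)
    (hAb : Bornology.IsBounded A) (hB : IsOpen B) (hBb : Bornology.IsBounded B) (hne : B.Nonempty)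
    (h : A = Ball d 1 ∨ ∃ l : ℝ, Ev A ∅ l ∧
      {n : ℕ | Odd n ∧ Ev A ∅ ((n : ℝ) ^ 2 * l)}.Finite) :
    ∃ C : Set ℝ, C.Countable ∧ ∀ R : ℝ, 0 < R → R ∉ C → ∀ p : ℕ, 1 ≤ p →
      Sharp (Prd d m R A B) p := by
  rcases h with rfl | ⟨l, hl, hf⟩
  · obtain ⟨C, hC, h⟩ := Pool.Agent.BEP.FunQ.cyl_ball d m hd hm B hB hBb hne
    refine ⟨C, hC, fun R hR hRC p hp a ha => ?_⟩
    have h1 : Prd d m R (Ball d 1) B = Pool.Agent.BEP.Fun.Cyl d m R B := by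
      ext x
      have e : ‖(WithLp.toLp 2 fun i : Fin d => R⁻¹ * x (Fin.castAdd m i) : E d)‖ < 1 ↔
          ∑ i : Fin d, x (Fin.castAdd m i) ^ 2 < R ^ 2 := by
        have e1 : ‖(WithLp.toLp 2 fun i : Fin d => R⁻¹ * x (Fin.castAdd m i) : E d)‖ ^ 2 =
            (∑ i : Fin d, x (Fin.castAdd m i) ^ 2) / R ^ 2 := by
          rw [EuclideanSpace.norm_sq_eq, Finset.sum_div]
          refine Finset.sum_congr rfl fun i _ => ?_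
          rw [Real.norm_eq_abs, sq_abs]
          show (R⁻¹ * x (Fin.castAdd m i)) ^ 2 = _
          rw [mul_pow, inv_pow]
          ring
        rw [← sq_lt_one_iff₀ (norm_nonneg _), e1, div_lt_one (by positivity)]
      exact and_congr_left' e
    rw [h1]
    exact h R a p hR hRC ha hp
  · have e : ∀ r : ℝ, Ev A ∅ r ↔ ∃ φ, Eig A r φ ∧ ¬ AeZero A φ := fun r =>
      ⟨fun ⟨φ, h1, h2, _⟩ => ⟨φ, h1, h2⟩, fun ⟨φ, h1, h2⟩ =>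
        ⟨φ, h1, h2, fun g hg => absurd hg (Set.notMem_empty g)⟩⟩
    obtain ⟨C, hC, h⟩ := Pool.Agent.Helper22FS.Prod.prod_fin d m hd hm A B hA hAb hB hBb hne l
      ((e l).1 hl) (by
        refine hf.subset ?_
        rintro n ⟨hn, hS⟩
        exact ⟨hn, (e _).2 hS⟩)
    exact ⟨C, hC, fun R hR hRC p hp a ha => h R a p hR hRC ha hp⟩

/-- **Solutions with `E(t) ∼ (1+t)^(-2/α)`, `α = 2p` even, in domains of `ℝ^d`, `d ≥ 2`.** The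
criterion and the dichotomy; balls and shells; almost every box for `α = 2`; products; generic domains. -/
theorem result :
    (∀ (d p : ℕ) (Ω : Set (E d)) (G : Set (E d ≃ᵢ E d)) (l : ℝ), 2 ≤ d → 1 ≤ p → IsOpen Ω →
      Bornology.IsBounded Ω → (∀ g ∈ G, g '' Ω = Ω) → Ev Ω G l →
      (∀ n : ℕ, Odd n → 3 ≤ n → n ≤ 2 * p + 1 → ¬ Ev Ω G ((n : ℝ) ^ 2 * l)) →
      (∀ J : ℕ, ∃ M, J ≤ M ∧ ∀ n : ℕ, Odd n → M < n → n ≤ M + 2 * p →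
        ¬ Ev Ω G ((n : ℝ) ^ 2 * l)) → Sharp Ω p) ∧
    (∀ (d : ℕ) (Ω : Set (E d)) (G : Set (E d ≃ᵢ E d)) (l : ℝ), 2 ≤ d → IsOpen Ω →
      Bornology.IsBounded Ω → (∀ g ∈ G, g '' Ω = Ω) → Ev Ω G l →
      ({n : ℕ | Odd n ∧ Ev Ω G ((n : ℝ) ^ 2 * l)}.Finite → ∀ p : ℕ, 1 ≤ p → Sharp Ω p) ∧
      ({k : ℕ | Ev Ω G ((9 : ℝ) ^ k * l)}.Finite → Sharp Ω 1)) ∧
    (∀ (d p : ℕ) (r R : ℝ), 2 ≤ d → 1 ≤ p → 0 < r → r < R →
      Sharp (Ball d R) p ∧ Sharp (Shell d r R) p) ∧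
    (∀ d : ℕ, 2 ≤ d → ∀ᵐ l : Fin d → ℝ, (∀ i, 0 < l i) → Sharp (Box l) 1) ∧
    (∀ (d m : ℕ) (A : Set (E d)) (B : Set (E m)), 2 ≤ d → 1 ≤ m → IsOpen A →
      Bornology.IsBounded A → IsOpen B → Bornology.IsBounded B → B.Nonempty →
      (A = Ball d 1 ∨ ∃ l : ℝ, Ev A ∅ l ∧ {n : ℕ | Odd n ∧ Ev A ∅ ((n : ℝ) ^ 2 * l)}.Finite) →
      ∃ C : Set ℝ, C.Countable ∧ ∀ R : ℝ, 0 < R → R ∉ C → ∀ p : ℕ, 1 ≤ p →
        Sharp (Prd d m R A B) p) ∧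
    ∀ (d P : ℕ) (D Ω : Set (E d)) (δ ε : ℝ), 2 ≤ d → IsOpen D → Bornology.IsBounded D →
      IsOpen Ω → IsConnected Ω → Ω ⊆ D → 0 < δ → 0 < ε →
      ∃ (J : ℕ) (x : Fin J → E d) (r : Fin J → ℝ) (Ω₁ : Set (E d)),
        (∀ j, 0 < r j ∧ Metric.closedBall (x j) (r j) ⊆ Ω) ∧
        (∀ i j, i ≠ j →
          Disjoint (Metric.closedBall (x i) (r i)) (Metric.closedBall (x j) (r j))) ∧
        ∑ j, r j < δ ∧ Ω₁ = Ω \ ⋃ j, Metric.closedBall (x j) (r j) ∧ IsConnected Ω₁ ∧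
        Near D Ω Ω₁ ε ∧ ∃ η : ℝ, 0 < η ∧ ∀ Ω' : Set (E d), IsOpen Ω' → IsConnected Ω' →
          Ω' ⊆ D → Near D Ω₁ Ω' η → ∀ p : ℕ, 1 ≤ p → p ≤ P → Sharp Ω' p :=
  ⟨fun _ _ _ _ _ hd hp hΩ hb hG hl h3 hgap =>
      crit Pool.Agent.BEP.AllR.frg hd hp hΩ hb hG hl h3 hgap,
    fun _ _ _ _ hd hΩ hb hG hl => ⟨fun hf => fin hd hΩ hb hG hl hf,
      fun hf => nine hd hΩ hb hG hl hf⟩,
    fun _ _ _ _ hd hp hr hR =>
      ⟨ball Pool.Agent.BEP.AllR.blb hd hp (hr.trans hR),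
        shell Pool.Agent.BEP.AllR.shb hd hp hr hR⟩,
    fun d hd => Pool.Agent.BXS.All.box d hd,
    fun _ _ _ _ hd hm hA hAb hB hBb hne h => prod hd hm hA hAb hB hBb hne h,
    fun d P D Ω δ ε hd hD hb hΩ hc hsub hδ hε => by
      obtain ⟨J, x, r, h1, h2, h3, h4, h5, η, hη, h6⟩ :=
        Pool.Agent.BEQ.FunA.generic d hd D Ω P δ ε hD hb hΩ hc hsub hδ hε
      exact ⟨J, x, r, _, h1, h2, h3, rfl, h4, h5, η, hη, fun Ω' g1 g2 g3 g4 p hp hP a ha =>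
        h6 Ω' g1 g2 g3 g4 a p ha hp hP⟩⟩

end

end Pool.Agent.Results.MP_be01ff_an.FinalState
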