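import Mathlib
import Pool.Agent.Helper39_Wave.Glue
import Pool.Agent.Helper39_Wave.Build

set_option autoImplicit false

open Real Filter Topology Set MeasureTheory

namespace Pool.Agent.Results.MP_be01ff_an.IntervalRate

/-- `u` is a classical solution of `u_tt - u_xx + a |u_t|^α u_t = 0` on the interval `(x₀, x₁)`
with homogeneous Dirichlet conditions, for `t ≥ 0`. -/
structure IsClassicalSolution (a α x₀ x₁ : ℝ) (u : ℝ → ℝ → ℝ) : Prop where
  smooth : ContDiff ℝ 2 (fun z : ℝ × ℝ => u z.1 z.2)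
  pde : ∀ t x : ℝ, 0 < t → x₀ < x → x < x₁ →
    iteratedDeriv 2 (fun s => u s x) t - iteratedDeriv 2 (fun y => u t y) x +
      a * (|deriv (fun s => u s x) t| ^ α * deriv (fun s => u s x) t) = 0
  left : ∀ t : ℝ, 0 ≤ t → u t x₀ = 0
  right : ∀ t : ℝ, 0 ≤ t → u t x₁ = 0

/-- The energy `E(t) = ∫ (u_t² + u_x²) dx` over the interval `(x₀, x₁)`. -/
noncomputable def energy (x₀ x₁ : ℝ) (u : ℝ → ℝ → ℝ) (t : ℝ) : ℝ :=
  ∫ x in x₀..x₁, ((deriv (fun s => u s x) t) ^ 2 + (deriv (fun y => u t y) x) ^ 2)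

open Pool.Agent.Helper39_Wave in
/-- A classical solution in terms of its first derivatives. -/
theorem toClassical {a α x₀ x₁ : ℝ} (hx : x₀ < x₁) (ha : 0 < a) (hα : 0 < α) {u : ℝ → ℝ → ℝ}
    (hu : IsClassicalSolution a α x₀ x₁ u) :
    ∃ v w : ℝ → ℝ → ℝ, Classical a α (x₁ - x₀) v w ∧
      ∀ t, energy x₀ x₁ u t = ∫ x in (0 : ℝ)..(x₁ - x₀), (v t x ^ 2 + w t x ^ 2) := by
  set F : ℝ × ℝ → ℝ := fun z => u z.1 z.2 with hF
  have hFc : ContDiff ℝ 2 F := hu.smooth
  have hd1 : ∀ z, HasFDerivAt F (fderiv ℝ F z) z := fun z =>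
    (hFc.differentiable (by norm_num) z).hasFDerivAt
  have hFf : ContDiff ℝ 1 (fderiv ℝ F) := hFc.fderiv_right (by norm_num)
  have hd2 : ∀ z, HasFDerivAt (fderiv ℝ F) (fderiv ℝ (fderiv ℝ F) z) z := fun z =>
    (hFf.differentiable (by norm_num) z).hasFDerivAt
  have hsymm : ∀ z p q, fderiv ℝ (fderiv ℝ F) z p q = fderiv ℝ (fderiv ℝ F) z q p := fun z p q =>
    (hFc.contDiffAt.isSymmSndFDerivAt (by simp)) p q
  set A : ℝ × ℝ → ℝ := fun z => fderiv ℝ F z (1, 0) with hA
  set B : ℝ × ℝ → ℝ := fun z => fderiv ℝ F z (0, 1) with hB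
  have cA : Continuous A := (hFf.clm_apply contDiff_const).continuous
  have cB : Continuous B := (hFf.clm_apply contDiff_const).continuous
  have hcurve : ∀ (c : ℝ → ℝ × ℝ) (p : ℝ × ℝ) (t : ℝ) (e : ℝ × ℝ), HasDerivAt c p t →
      HasDerivAt (fun s => fderiv ℝ F (c s) e) (fderiv ℝ (fderiv ℝ F) (c t) p e) t := by
    intro c p t e hc
    have h1 := (hd2 (c t)).comp_hasDerivAt t hc
    have h2 := (ContinuousLinearMap.apply ℝ ℝ e).hasFDerivAt.comp_hasDerivAt t h1
    exact h2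
  have hut : ∀ t x, HasDerivAt (fun s => u s x) (A (t, x)) t := by
    intro t x
    have h1 : HasDerivAt (fun s : ℝ => ((s, x) : ℝ × ℝ)) ((1, 0) : ℝ × ℝ) t :=
      (hasDerivAt_id t).prodMk (hasDerivAt_const t x)
    exact (hd1 (t, x)).comp_hasDerivAt t h1
  have hux : ∀ t x, HasDerivAt (fun y => u t y) (B (t, x)) x := by
    intro t x
    have h1 : HasDerivAt (fun y : ℝ => ((t, y) : ℝ × ℝ)) ((0, 1) : ℝ × ℝ) x :=
      (hasDerivAt_const x t).prodMk (hasDerivAt_id x)
    exact (hd1 (t, x)).comp_hasDerivAt x h1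
  have hutd : ∀ x, deriv (fun s => u s x) = fun s => A (s, x) := fun x =>
    funext fun s => (hut s x).deriv
  have huxd : ∀ t, deriv (fun y => u t y) = fun y => B (t, y) := fun t =>
    funext fun y => (hux t y).deriv
  have hutt : ∀ t x, iteratedDeriv 2 (fun s => u s x) t =
      fderiv ℝ (fderiv ℝ F) (t, x) (1, 0) (1, 0) := by
    intro t x
    rw [iteratedDeriv_succ, iteratedDeriv_one, hutd]
    have h1 : HasDerivAt (fun s : ℝ => ((s, x) : ℝ × ℝ)) ((1, 0) : ℝ × ℝ) t :=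
      (hasDerivAt_id t).prodMk (hasDerivAt_const t x)
    exact (hcurve _ _ t (1, 0) h1).deriv
  have huxx : ∀ t x, iteratedDeriv 2 (fun y => u t y) x =
      fderiv ℝ (fderiv ℝ F) (t, x) (0, 1) (0, 1) := by
    intro t x
    rw [iteratedDeriv_succ, iteratedDeriv_one, huxd]
    have h1 : HasDerivAt (fun y : ℝ => ((t, y) : ℝ × ℝ)) ((0, 1) : ℝ × ℝ) x :=
      (hasDerivAt_const x t).prodMk (hasDerivAt_id x)
    exact (hcurve _ _ x (0, 1) h1).deriv
  have hpde : ∀ t x, 0 < t → 0 < x → x < x₁ - x₀ →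
      fderiv ℝ (fderiv ℝ F) (t, x₀ + x) (1, 0) (1, 0) -
        fderiv ℝ (fderiv ℝ F) (t, x₀ + x) (0, 1) (0, 1) = -a * phi α (A (t, x₀ + x)) := by
    intro t x ht h0 h1
    have h2 := hu.pde t (x₀ + x) ht (by linarith) (by linarith)
    rw [hutt, huxx, (hut t (x₀ + x)).deriv] at h2
    unfold phi
    linarith
  have hvan : ∀ y : ℝ, (∀ t, 0 ≤ t → u t y = 0) → ∀ t, 0 ≤ t → A (t, y) = 0 := by
    intro y hy t ht
    have h1 : HasDerivWithinAt (fun s => u s y) (A (t, y)) (Ici 0) t := (hut t y).hasDerivWithinAt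
    have h2 : HasDerivWithinAt (fun s => u s y) 0 (Ici 0) t :=
      (hasDerivWithinAt_const t (Ici 0) (0 : ℝ)).congr (fun s hs => hy s hs) (hy t ht)
    exact (uniqueDiffOn_Ici (0 : ℝ) t ht).eq_deriv (Ici 0) h1 h2
  refine ⟨fun t x => A (t, x₀ + x), fun t x => B (t, x₀ + x), ?_, ?_⟩
  · refine ⟨ha, hα, by linarith, cA.comp (by fun_prop), cB.comp (by fun_prop), ?_, ?_, ?_, ?_, ?_⟩
    · intro t ht
      show A (t, x₀ + 0) = 0
      rw [add_zero]
      exact hvan x₀ hu.left t ht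
    · intro t ht
      show A (t, x₀ + (x₁ - x₀)) = 0
      rw [add_sub_cancel]
      exact hvan x₁ hu.right t ht
    · intro t x ht h0 h1
      have hc : HasDerivAt (fun s : ℝ => ((s, x₀ + (x + t - s)) : ℝ × ℝ)) ((1, -1) : ℝ × ℝ) t :=
        (hasDerivAt_id t).prodMk (((hasDerivAt_id t).const_sub (x + t)).const_add x₀)
      have h2 := (hcurve _ _ t (0, 1) hc).add (hcurve _ _ t (1, 0) hc)
      have e0 : x₀ + (x + t - t) = x₀ + x := by ring
      simp only [e0] at h2
      have e1 : ((1, -1) : ℝ × ℝ) = (1, 0) - (0, 1) := by simp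
      have e2 : fderiv ℝ (fderiv ℝ F) (t, x₀ + x) (1, -1) (0, 1) +
          fderiv ℝ (fderiv ℝ F) (t, x₀ + x) (1, -1) (1, 0) = -a * phi α (A (t, x₀ + x)) := by
        rw [← hpde t x ht h0 h1, e1, map_sub, _root_.sub_apply,
          _root_.sub_apply, hsymm _ (0, 1) (1, 0)]
        ring
      rw [e2] at h2
      exact h2
    · intro t x ht h0 h1
      have hc : HasDerivAt (fun s : ℝ => ((s, x₀ + (x - t + s)) : ℝ × ℝ)) ((1, 1) : ℝ × ℝ) t :=
        (hasDerivAt_id t).prodMk (((hasDerivAt_id t).const_add (x - t)).const_add x₀)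
      have h2 := (hcurve _ _ t (0, 1) hc).sub (hcurve _ _ t (1, 0) hc)
      have e0 : x₀ + (x - t + t) = x₀ + x := by ring
      simp only [e0] at h2
      have e1 : ((1, 1) : ℝ × ℝ) = (1, 0) + (0, 1) := by simp
      have e2 : fderiv ℝ (fderiv ℝ F) (t, x₀ + x) (1, 1) (0, 1) -
          fderiv ℝ (fderiv ℝ F) (t, x₀ + x) (1, 1) (1, 0) = a * phi α (A (t, x₀ + x)) := by
        have h3 := hpde t x ht h0 h1
        rw [e1, map_add, _root_.add_apply,
          _root_.add_apply, hsymm _ (0, 1) (1, 0)]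
        linarith
      rw [e2] at h2
      exact h2
    · intro t ht
      show ∫ x in (0 : ℝ)..(x₁ - x₀), B (t, x₀ + x) = 0
      rw [intervalIntegral.integral_comp_add_left (fun y => B (t, y)), add_zero, add_sub_cancel]
      rw [intervalIntegral.integral_eq_sub_of_hasDerivAt (f := fun y => u t y)
        (fun y _ => hux t y)
        ((cB.comp (by fun_prop : Continuous fun y : ℝ => (t, y))).intervalIntegrable _ _)]
      rw [hu.left t ht, hu.right t ht, sub_zero]
  · intro t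
    unfold energy
    rw [intervalIntegral.integral_comp_add_left (fun y => A (t, y) ^ 2 + B (t, y) ^ 2), add_zero,
      add_sub_cancel]
    congr 1
    funext x
    rw [(hut t x).deriv, (hux t x).deriv]

open Pool.Agent.Helper39_Wave in
/-- Existence of a nontrivial classical solution. -/
theorem exists_solution {a α x₀ x₁ : ℝ} (hx : x₀ < x₁) (ha : 0 < a) (hα : 0 < α) :
    ∃ u, IsClassicalSolution a α x₀ x₁ u ∧ 0 < energy x₀ x₁ u 0 := by
  have hℓ : 0 < x₁ - x₀ := by linarith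
  set ℓ : ℝ := x₁ - x₀ with hℓd
  set κ : ℝ := a / 2 ^ (α + 1) with hκ
  have h2 : (0 : ℝ) < 2 ^ (α + 1) := by positivity
  have hκ0 : 0 < κ := by positivity
  obtain ⟨P, D, hS, cD, hD, hP, hb⟩ := exists_charSol hκ0 hα hℓ
  obtain ⟨u, v, w, hsm, hut, hux, hv, hw, hpde, hu0, hul⟩ := build hS cD hD hP hb
  have hUt : ∀ t x, HasDerivAt (fun s => u s (x - x₀)) (v t (x - x₀)) t := fun t x =>
    hut t (x - x₀)
  have hUx : ∀ t x, HasDerivAt (fun y => u t (y - x₀)) (w t (x - x₀)) x := by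
    intro t x
    have h1 := (hux t (x - x₀)).comp x ((hasDerivAt_id x).sub_const x₀)
    rw [mul_one] at h1
    exact h1
  refine ⟨fun t x => u t (x - x₀), ⟨?_, ?_, ?_, ?_⟩, ?_⟩
  · exact hsm.comp (contDiff_fst.prodMk (contDiff_snd.sub contDiff_const))
  · intro t x ht _ _
    obtain ⟨vt, wx, h3, h4, h5⟩ := hpde t ht.le (x - x₀)
    have e1 : iteratedDeriv 2 (fun s => u s (x - x₀)) t = vt := by
      rw [iteratedDeriv_succ, iteratedDeriv_one]
      have : deriv (fun s => u s (x - x₀)) = fun s => v s (x - x₀) :=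
        funext fun s => (hUt s x).deriv
      rw [this]
      exact h3.deriv
    have e2 : iteratedDeriv 2 (fun y => u t (y - x₀)) x = wx := by
      rw [iteratedDeriv_succ, iteratedDeriv_one]
      have : deriv (fun y => u t (y - x₀)) = fun y => w t (y - x₀) :=
        funext fun y => (hUx t y).deriv
      rw [this]
      have h6 := h4.comp x ((hasDerivAt_id x).sub_const x₀)
      rw [mul_one] at h6
      exact h6.deriv
    rw [e1, e2, (hUt t x).deriv, h5]
    have e3 : 2 ^ (α + 1) * κ = a := by rw [hκ]; field_simp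
    rw [e3]
    unfold phi
    ring
  · intro t _
    show u t (x₀ - x₀) = 0
    rw [sub_self]
    exact hu0 t
  · intro t ht
    exact hul t ht
  · have h0 : ∀ y, P 0 y = Real.cos (π / ℓ * y) := by
      intro y
      rw [hP 0 y]; simp
    have e1 : energy x₀ x₁ (fun t x => u t (x - x₀)) 0 =
        ∫ x in x₀..x₁, (Real.cos (π / ℓ * (x - x₀))) ^ 2 := by
      unfold energy
      congr 1
      funext x
      rw [(hUt 0 x).deriv, (hUx 0 x).deriv, hv, hw, h0, h0, zero_add, zero_sub, mul_neg,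
        Real.cos_neg]
      ring
    rw [e1]
    apply intervalIntegral.integral_pos hx
    · fun_prop
    · intro x _
      positivity
    · refine ⟨x₀, ⟨le_rfl, hx.le⟩, ?_⟩
      simp

open Pool.Agent.Helper39_Wave in
/-- **Sharp energy decay in one space dimension.** -/
theorem result (x₀ x₁ a α : ℝ) (hx : x₀ < x₁) (ha : 0 < a) (hα : 0 < α) :
    (∃ u, IsClassicalSolution a α x₀ x₁ u ∧ 0 < energy x₀ x₁ u 0) ∧
    ∀ u, IsClassicalSolution a α x₀ x₁ u → 0 < energy x₀ x₁ u 0 →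
      ∃ c C : ℝ, 0 < c ∧ c ≤ C ∧ ∀ t : ℝ, 0 ≤ t →
        c * (1 + t) ^ (-(2 / α)) ≤ energy x₀ x₁ u t ∧
          energy x₀ x₁ u t ≤ C * (1 + t) ^ (-(2 / α)) := by
  refine ⟨exists_solution hx ha hα, ?_⟩
  intro u hu h0
  obtain ⟨v, w, hcl, hE⟩ := toClassical hx ha hα hu
  rw [hE 0] at h0
  obtain ⟨c, C, hc, hC, hr⟩ := hcl.rate h0
  refine ⟨c, C, hc, ?_, ?_⟩
  · have := hr 0 le_rfl
    simp only [add_zero, Real.one_rpow, mul_one] at this
    linarith [this.1, this.2]
  · intro t ht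
    rw [hE t]
    exact hr t ht

end Pool.Agent.Results.MP_be01ff_an.IntervalRate
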