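import Pool.Agent.Helper22_BEC.All
import Pool.Agent.Helper25_BEW.All
import Pool.Agent.Helper22_R3B.All

/-!
# MP_be01ff_an: solutions with the sharp rate of decay in spherical shells and balls, real powers
-/

namespace Pool.Agent.Results.MP_be01ff_an.ShellRate

open Pool.Agent.BE01F

/-- The shell `r < |x| < R` of `ℝ^d`. -/
def Shell (d : ℕ) (r R : ℝ) : Set (E d) := {x | r < ‖x‖ ∧ ‖x‖ < R}

/-- The ball `|x| < R` of `ℝ^d`. -/
def Ball (d : ℕ) (R : ℝ) : Set (E d) := {x | ‖x‖ < R}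

/-- **Radial domains, every real power `α > 0`, every dimension `d ≥ 2`: solutions with
`E(t) ∼ (1+t)^(-2/α)` in all thin shells, in all shells of `ℝ^3`, and, for `α < 2`, in all balls of
`ℝ^3`.** -/
theorem result (d : ℕ) (α : ℝ) (hd : 2 ≤ d) (hα : 0 < α) :
    ∃ κ : ℝ, 0 < κ ∧ ∀ (Ω : Set (E d)) (a : ℝ), 0 < a →
      ((∃ r R : ℝ, Ω = Shell d r R ∧ 0 < r ∧ r < R ∧ (R ≤ (1 + κ) * r ∨ d = 3)) ∨
        (∃ R : ℝ, Ω = Ball d R ∧ 0 < R ∧ d = 3 ∧ α < 2)) → SharpRate Ω a α := by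
  obtain ⟨κ, hκ, h⟩ := Pool.Agent.BEW.H25.thin_all d hd α hα
  refine ⟨κ, hκ, fun Ω a ha hΩ => ?_⟩
  rcases hΩ with ⟨r, R, rfl, hr, hR, hk⟩ | ⟨R, rfl, hR, rfl, hα2⟩
  · rcases hk with hk | rfl
    · exact h r R a hr hR hk ha
    · exact Pool.Agent.BEC.All.shr r R a α hr hR ha hα
  · exact Pool.Agent.R3B.All.fin a α R ha hα hα2 hR

end Pool.Agent.Results.MP_be01ff_an.ShellRate
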